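import Pool.Agent.H90.ISO.StF

/-!
# Slow coordinates are thin and not static

A coordinate (or the target) whose diagonal has the slope `s` at a good window, where the
coordinates before it are thin or static: if `s < 2`, it is thin (`PkT.slow_thin`); if `1 < s < 2`,
it is not static. A static coordinate has the slope one or at least two (`PkT.sta_slope`).
-/

set_option autoImplicit false

namespace Pool.PKG

open MeasureTheory Set Filter Topology
open Pool.Agent.H49.Ent Pool.Agent.H32.Dense Pool.STK Pool.KA Pool.KSAT Pool.K2S Pool.PB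
open Pool.GEN Pool.S6C Pool.STAT Pool.CHT Pool.GRW Pool.ONE Pool.STA
open Pool.LEV (Law)
open Pool.TOP (TopS)
open Pool.QNT (affB_of)
open Pool.STR (ThinAt SteepAt StaAt StaD)
open Pool.NMS (slope_eq dia_le)

/-- Thin and static: the slope is at most one. -/
theorem sta_thin_le {PN P : ℝ → ℝ → ℝ} {g : ℝ} (heq : PN g g = P g g)
    (hd : DifferentiableAt ℝ (fun a => PN a a) g) (ht : ThinAt PN P g) (hs : StaAt PN g) :
    deriv (fun a => PN a a) g ≤ 1 := by
  by_contra hcon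
  push Not at hcon
  obtain ⟨s, hs'⟩ : ∃ s : ℝ, s = deriv (fun a => PN a a) g := ⟨_, rfl⟩
  rw [← hs'] at hcon
  obtain ⟨e, he⟩ : ∃ e : ℝ, e = (s - 1) / 4 := ⟨_, rfl⟩
  have he0 : 0 < e := by rw [he]; linarith
  obtain ⟨r₁, hr₁, h1⟩ := ht e he0
  obtain ⟨r₂, hr₂, h2⟩ := hs e he0
  obtain ⟨r₃, hr₃, h3⟩ := affB_of hd (M := 1) one_pos he0
  obtain ⟨r, hr⟩ : ∃ r : ℝ, r = min r₁ (min r₂ r₃) / 2 := ⟨_, rfl⟩
  have hm : 0 < min r₁ (min r₂ r₃) := lt_min hr₁ (lt_min hr₂ hr₃)
  have hr0 : 0 < r := by rw [hr]; linarith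
  have a1 : r < r₁ := by
    have := min_le_left r₁ (min r₂ r₃)
    linarith
  have a2 : r < r₂ := by
    have := (min_le_right r₁ (min r₂ r₃)).trans (min_le_left _ _)
    linarith
  have a3 : r < r₃ := by
    have := (min_le_right r₁ (min r₂ r₃)).trans (min_le_right _ _)
    linarith
  have b1 := h1 r hr0 a1 (g + r) g (by linarith) (by linarith) (by linarith)
  have b2 := h2 r hr0 a2 (g + r) g (by linarith) (by linarith) (by linarith)
  have b3 := h3 r hr0 a3 (g + r) (by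
    rw [add_sub_cancel_left, abs_of_pos hr0, one_mul])
  rw [← hs'] at b3
  have b4 := (abs_le.1 b3).1
  have b5 : (g + r - g) = r := by ring
  rw [b5] at b1 b4
  have b6 : s * r - e * r ≤ r + 2 * (e * r) := by linarith
  have b7 : s * r = (1 + 4 * e) * r := by
    rw [he]
    ring
  nlinarith

/-- A `2`-steep threshold has a slope at least two. -/
theorem steep_ge {P : ℝ → ℝ → ℝ} {g : ℝ} (hP : Law P) (hg0 : 0 < g) (hg1 : g < 1)
    (hd : DifferentiableAt ℝ (fun a => P a a) g) (hs : SteepAt 2 P g) :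
    2 ≤ deriv (fun a => P a a) g := by
  by_contra hcon
  push Not at hcon
  obtain ⟨s, hs'⟩ : ∃ s : ℝ, s = deriv (fun a => P a a) g := ⟨_, rfl⟩
  rw [← hs'] at hcon
  obtain ⟨e, he⟩ : ∃ e : ℝ, e = (2 - s) / 4 := ⟨_, rfl⟩
  have he0 : 0 < e := by rw [he]; linarith
  obtain ⟨r₂, hr₂, h2⟩ := hs e he0
  obtain ⟨r₃, hr₃, h3⟩ := affB_of hd (M := 1) one_pos he0
  obtain ⟨r, hr⟩ : ∃ r : ℝ, r = min (min r₂ r₃) (1 - g) / 2 := ⟨_, rfl⟩
  have hm : 0 < min (min r₂ r₃) (1 - g) := lt_min (lt_min hr₂ hr₃) (by linarith)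
  have hr0 : 0 < r := by rw [hr]; linarith
  have a2 : r < r₂ := by
    have := (min_le_left (min r₂ r₃) (1 - g)).trans (min_le_left _ _)
    linarith
  have a3 : r < r₃ := by
    have := (min_le_left (min r₂ r₃) (1 - g)).trans (min_le_right _ _)
    linarith
  have a4 : r < 1 - g := by
    have := min_le_right (min r₂ r₃) (1 - g)
    linarith
  have b2 := h2 r hr0 a2 (g + r) g (by linarith) (by linarith) (by linarith)
  have b3 := h3 r hr0 a3 (g + r) (by
    rw [add_sub_cancel_left, abs_of_pos hr0, one_mul])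
  rw [← hs'] at b3
  have b4 := (abs_le.1 b3).2
  have b5 : (g + r - g) = r := by ring
  rw [b5] at b2 b4
  have b6 := hP.mono_w (g + r) g (g + r) hg0.le (by linarith) le_rfl (by linarith)
  have b8 : 2 * r ≤ s * r + 2 * (e * r) := by linarith
  have b7 : s * r = (2 - 4 * e) * r := by
    rw [he]
    ring
  nlinarith

variable {n : ℕ} {hn : 2 ≤ n} {S : PCl n} {P : ℝ → ℝ → ℝ} {r : ℝ → ℝ}
  {P' : ℕ → List (Fin n) × Fin n → ℝ → ℝ → ℝ} {Λ : Finset (Fin n) → Fin n → ℝ → ℝ → ℝ}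
  {PB : ℕ → List (Fin n) × Fin n → ℝ → ℝ → ℝ}

/-- **A coordinate with a slope smaller than two is thin**; if the slope is larger than one, it is
not static. -/
theorem PkT.slow_thin (H : PkT hn S P r P' Λ PB) (hTop : TopS n) (hF : FZX (n - 1)) :
    ∀ᵐ g : ℝ, ∀ o : Od n, g ∈ Gs P r P' Λ o → ∀ i ≤ n - 1, (∀ l < i, ThS hn P P' PB o l g) →
      deriv (fun a => LvL hn P P' o i a a) g < 2 →
      ThinAt (LvL hn P P' o i) (LvT hn PB o i) g ∧
        (1 < deriv (fun a => LvL hn P P' o i a a) g → ¬ StaAt (LvL hn P P' o i) g) := by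
  filter_upwards [H.thin_steep H.pble hTop hF fun Sb del h1 h2 => evTC (n - 1) (by omega) Sb del
    h1 h2, H.dia_all H.pble hTop hF] with g h1 h2 o ho i hi hl hs
  obtain ⟨d1, d2, d3⟩ := h2 o ho i hi
  obtain ⟨α, Q, c, F⟩ := H.toPk.fac hTop hF ho
  rcases h1 o ho i hi hl with h3 | h3
  · refine ⟨h3, fun h4 h5 => ?_⟩
    have h6 := sta_thin_le d3 d1 h3 h5
    linarith
  · exfalso
    have h4 := steep_ge (H.lawT o i) F.g0 F.g1 d2 h3
    have h5 := slope_eq d2 d1 d3
      (dia_le (H.lawT o i) (H.lawL o i) F.g0 F.g1 (H.leAt H.pble hTop hF ho hi))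
    rw [h5] at hs
    linarith

/-- **The slope of a static coordinate** is one or at least two. -/
theorem PkT.sta_slope (H : PkT hn S P r P' Λ PB) (hTop : TopS n) (hF : FZX (n - 1)) :
    ∀ᵐ g : ℝ, ∀ o : Od n, g ∈ Gs P r P' Λ o → ∀ i ≤ n - 1, (∀ l < i, ThS hn P P' PB o l g) →
      StaAt (LvL hn P P' o i) g → deriv (fun a => LvL hn P P' o i a a) g ≤ 1 ∨
        2 ≤ deriv (fun a => LvL hn P P' o i a a) g := by
  filter_upwards [H.slow_thin hTop hF] with g h1 o ho i hi hl hs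
  by_contra hcon
  push Not at hcon
  exact (h1 o ho i hi hl hcon.2).2 hcon.1 hs

end Pool.PKG
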